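import Mathlib
import Pool.Agent.Lib.Helper58.LiouvilleAbel

/-!
# Wintner's asymptotic for `L_{1/2}` is equivalent to `L(x) = o(√x log x)`

`λ` is the Liouville function, `L(x) = ∑_{n ≤ x} λ(n)` and `L_{1/2}(x) = ∑_{n ≤ x} λ(n)/√n`.
We prove, with no unproved hypothesis, that the following are equivalent:

* `2 ζ(1/2) L_{1/2}(x) / log x → 1` (the asymptotic of Q1);
* `L_{1/2}(x) / log x` has a real limit, whatever it is;
* `L(x) = o(√x log x)`.
-/

set_option autoImplicit false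

namespace Pool.Agent.Results.MP_0c6bc5_nt.TauberianEquivalence

open Filter Topology Asymptotics

/-- `L(x) = ∑_{1 ≤ n ≤ x} λ(n)`, where `λ` is the Liouville function. -/
noncomputable def L (x : ℝ) : ℝ :=
  ∑ n ∈ Finset.Icc 1 ⌊x⌋₊, (ArithmeticFunction.liouville n : ℝ)

/-- `L_{1/2}(x) = ∑_{1 ≤ n ≤ x} λ(n) / √n`. -/
noncomputable def Lhalf (x : ℝ) : ℝ :=
  ∑ n ∈ Finset.Icc 1 ⌊x⌋₊, (ArithmeticFunction.liouville n : ℝ) / √(n : ℝ)

/-- Wintner's asymptotic (Q1), the existence of the limit of `L_{1/2}(x)/log x`, and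
`L(x) = o(√x log x)` are equivalent. -/
theorem result : List.TFAE [
    Tendsto (fun x : ℝ => 2 * riemannZeta (1 / 2) * (Lhalf x : ℂ) / (Real.log x : ℂ))
      atTop (𝓝 1),
    ∃ a : ℝ, Tendsto (fun x : ℝ => Lhalf x / Real.log x) atTop (𝓝 a),
    L =o[atTop] (fun x : ℝ => √x * Real.log x)] :=
  Helper58.Liou.main

end Pool.Agent.Results.MP_0c6bc5_nt.TauberianEquivalence
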